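import Pool.Agent.H.MP_011e6c_al.C

namespace Pool.Agent.H.MP_34520e_al
open Pool.Agent.H.MP_011e6c_al

lemma core' {H : Type} [Group H] (A : NL → Subgroup H) (hn : ∀ x, (A x).Normal)
    (hi : ∀ x y, A (x ⊓ y) = A x ⊔ A y) (hs : ∀ x y, A (x ⊔ y) = A x ⊓ A y) :
    A c2.K ≤ A z2.K := by
  have := hn T
  let π := QuotientGroup.mk' (A T)
  have su : Function.Surjective π := QuotientGroup.mk'_surjective _
  have le : ∀ x : NL, π.ker ≤ A x := fun x => by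
    have e : T ⊔ x = T := sup_eq_left.2 (show x.1 ≤ ⊤ from le_top)
    rw [QuotientGroup.ker_mk', ← e, hs]
    exact inf_le_right
  have c : ∀ x : NL, ((A x).map π).comap π = A x := fun x => Subgroup.comap_map_eq_self (le x)
  let R : Rep (H ⧸ A T) := {
    A x := (A x).map π
    hn x := (hn _).map π su
    hi x y := by rw [← Subgroup.map_sup, ← hi]
    hs x y := Subgroup.comap_injective su (by rw [Subgroup.comap_inf, c, c, c, ← hs])
    h0 := QuotientGroup.map_mk'_self _ }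
  rw [← c, ← c z2.K]
  exact Subgroup.comap_mono R.core

structure TRep (Λ X : Type) [Lattice Λ] (T : Λ) where
  r : Λ → X → X → Prop
  rf : ∀ x a, r x a a
  sy : ∀ {x a b}, r x a b → r x b a
  tr : ∀ {x a b c}, r x a b → r x b c → r x a c
  mo : ∀ {x y a b}, x ≤ y → r y a b → r x a b
  de : ∀ {x y a b}, r (x ⊓ y) a b → ∃ c, r x a c ∧ r y c b
  mt : ∀ {x y a b}, r x a b → r y a b → r (x ⊔ y) a b
  h0 : ∀ {a b}, r T a b → a = b

namespace TRep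
variable {Λ X : Type} [Lattice Λ] {T : Λ} (R : TRep Λ X T)

lemma sw {x y : Λ} {a b c : X} (h : R.r x a b) (k : R.r y b c) : ∃ d, R.r y a d ∧ R.r x d c :=
  R.de (R.tr (R.mo inf_le_right h) (R.mo inf_le_left k))

lemma ind {J : Type} [Fintype J] [Nonempty J] (B : J → Λ) (E : X → X → Prop)
    (t : ∀ {a b c}, E a b → E b c → E a c) (h : ∀ i a b, R.r (B i) a b → E a b) :
    ∀ a b, R.r (Finset.univ.inf' Finset.univ_nonempty B) a b → E a b :=
  Finset.inf'_induction _ _ (p := fun x => ∀ a b, R.r x a b → E a b)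
    (fun _ h1 _ h2 _ _ h => by
      obtain ⟨c, k1, k2⟩ := R.de h
      exact t (h1 _ _ k1) (h2 _ _ k2)) fun i _ => h i

def H0 (j k : Λ) : Subgroup (Equiv.Perm X) where
  carrier := {f | (∀ x, k ≤ x → ∀ a b, R.r x (f a) (f b) ↔ R.r x a b) ∧ ∀ a, R.r j a (f a)}
  mul_mem' := fun {f g} hf hg => ⟨fun x hx a b => (hf.1 x hx _ _).trans (hg.1 x hx _ _),
    fun a => R.tr (hg.2 a) (hf.2 _)⟩
  one_mem' := ⟨fun _ _ _ _ => Iff.rfl, R.rf _⟩
  inv_mem' := fun {f} hf => ⟨fun x hx a b => by simpa using (hf.1 x hx (f⁻¹ a) (f⁻¹ b)).symm,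
    fun a => R.sy (by simpa using hf.2 (f⁻¹ a))⟩

lemma swap {j k β : Λ} (h1 : j ≤ β) (h2 : T ≤ β ⊔ k) {a b : X} (h : R.r β a b) :
    ∃ f ∈ R.H0 j k, f a = b := by
  classical
  let S : X → X → Prop := fun z w => R.r β z w ∧ (R.r k z a ∧ R.r k w b ∨ R.r k z b ∧ R.r k w a)
  have sy : ∀ {z w}, S z w → S w z := fun h => ⟨R.sy h.1, by tauto⟩
  have un : ∀ {z w w'}, S z w → S z w' → w = w' := fun {z w w'} h h' => by
    refine R.h0 (R.mo h2 (R.mt (R.tr (R.sy h.1) h'.1) ?_))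
    rcases h.2 with ⟨p, q⟩ | ⟨p, q⟩ <;> rcases h'.2 with ⟨p', q'⟩ | ⟨p', q'⟩
    · exact R.tr q (R.sy q')
    · exact R.tr q (R.tr (R.sy p') (R.tr p (R.sy q')))
    · exact R.tr q (R.tr (R.sy p') (R.tr p (R.sy q')))
    · exact R.tr q (R.sy q')
  let s : X → X := fun z => if h : ∃ w, S z w then h.choose else z
  have s1 : ∀ {z w}, S z w → s z = w := fun {z w} h => by
    simp only [s, dif_pos (⟨w, h⟩ : ∃ w, S z w)]
    exact un (Exists.choose_spec (⟨w, h⟩ : ∃ w, S z w)) h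
  have s2 : ∀ {z}, (¬ ∃ w, S z w) → s z = z := fun h => dif_neg h
  have iv : Function.Involutive s := fun z => by
    by_cases c : ∃ w, S z w
    · obtain ⟨w, c⟩ := c
      rw [s1 c, s1 (sy c)]
    · rw [s2 c, s2 c]
  have mv : ∀ x, k ≤ x → ∀ {z z' w}, R.r x z z' → S z w → ∃ w', S z' w' ∧ R.r x w w' :=
    fun x hx z z' w h c => by
      obtain ⟨w', p, q⟩ := R.sw (R.sy c.1) h
      refine ⟨w', ⟨R.sy q, ?_⟩, p⟩
      have u := R.sy (R.mo hx h)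
      have v := R.sy (R.mo hx p)
      exact c.2.imp (fun c => ⟨R.tr u c.1, R.tr v c.2⟩) fun c => ⟨R.tr u c.1, R.tr v c.2⟩
  have pr : ∀ x, k ≤ x → ∀ z z', R.r x z z' → R.r x (s z) (s z') := fun x hx z z' h => by
    by_cases c : ∃ w, S z w
    · obtain ⟨w, c⟩ := c
      obtain ⟨w', p, q⟩ := mv x hx h c
      rwa [s1 c, s1 p]
    · rwa [s2 c, s2 fun ⟨w, p⟩ => c ((mv x hx (R.sy h) p).imp fun _ => And.left)]
  refine ⟨iv.toPerm s, ⟨fun x hx z z' => ⟨fun h => ?_, pr x hx z z'⟩, fun z => ?_⟩,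
    s1 ⟨h, Or.inl ⟨R.rf _ _, R.rf _ _⟩⟩⟩
  · simpa only [Function.Involutive.coe_toPerm, iv z, iv z'] using pr x hx _ _ h
  · change R.r j z (s z)
    by_cases c : ∃ w, S z w
    · obtain ⟨w, c⟩ := c
      rw [s1 c]
      exact R.mo h1 c.1
    · rw [s2 c]
      exact R.rf _ _

theorem main {J : Type} [Fintype J] [Nonempty J] (B C : J → Λ) (t : Λ) (ι : NL → Λ)
    (i1 : ∀ x y, ι (x ⊓ y) = ι x ⊓ ι y) (i2 : ∀ x y, ι (x ⊔ y) = ι x ⊔ ι y) (i3 : ∀ x, t ≤ ι x)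
    (h1 : Finset.univ.inf' Finset.univ_nonempty B ≤ t)
    (h2 : Finset.univ.inf' Finset.univ_nonempty C ≤ t)
    (h3 : ∀ i, T ≤ B i ⊔ Finset.univ.inf' Finset.univ_nonempty C) (h4 : ∀ i, T ≤ C i ⊔ t)
    (h5 : t ≤ Finset.univ.inf' Finset.univ_nonempty B ⊔ Finset.univ.inf' Finset.univ_nonempty C)
    {o y : X} (h : R.r (ι c2.K) o y) : R.r (ι z2.K) o y := by
  have b1 := R.ind B
  have c1 := R.ind C
  have b2 : ∀ i, Finset.univ.inf' Finset.univ_nonempty B ≤ B i := fun i =>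
    Finset.inf'_le _ (Finset.mem_univ i)
  have c2 : ∀ i, Finset.univ.inf' Finset.univ_nonempty C ≤ C i := fun i =>
    Finset.inf'_le _ (Finset.mem_univ i)
  generalize Finset.univ.inf' Finset.univ_nonempty B = j at *
  generalize Finset.univ.inf' Finset.univ_nonempty C = k at *
  let A : ∀ x, k ≤ x → Subgroup (R.H0 j k) := fun x hx => {
    carrier := {f | R.r x o (f.1 o)}
    mul_mem' := fun {f g} hf hg => R.tr hf ((f.2.1 x hx _ _).2 hg)
    one_mem' := R.rf _ _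
    inv_mem' := fun {f} hf => R.sy ((f.2.1 x hx _ _).1 (by simpa using hf)) }
  have tv : ∀ {y}, R.r t o y → ∃ f : A k le_rfl, f.1.1 o = y := fun {y} h => by
    obtain ⟨f, hf, e⟩ := b1 (fun a b => ∃ f ∈ R.H0 j k, f a = b)
      (by rintro a b c ⟨f, hf, rfl⟩ ⟨g, hg, rfl⟩; exact ⟨g * f, mul_mem hg hf, rfl⟩)
      (fun i a b => R.swap (b2 i) (h3 i)) o y (R.mo h1 h)
    exact ⟨⟨⟨f, hf⟩, show R.r k o (f o) from e ▸ R.mo h2 h⟩, e⟩
  have key : ∀ (f : A k le_rfl) x, t ≤ x → R.r x o (f.1.1 o) → ∀ z, R.r k o z → R.r x z (f.1.1 z) :=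
    fun f x hx h z hz => (c1 (fun a b => R.r k o a ∧ R.r x a (f.1.1 a) → R.r k o b ∧ R.r x b (f.1.1 b))
      (fun p q h => q (p h)) (fun i a b p q => by
        have u := R.tr q.1 (R.mo (c2 i) p)
        obtain ⟨w, w1, w2⟩ := R.sw (R.sy p) q.2
        have v : R.r t b (f.1.1 b) := R.mo h5 (R.mt (f.1.2.2 b)
          (R.tr (R.sy u) (R.tr f.2 ((f.1.2.1 k le_rfl _ _).2 u))))
        obtain rfl := R.h0 (R.mo (h4 i) (R.mt (R.tr w2 ((f.1.2.1 _ (c2 i) _ _).2 p))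
          (R.tr (R.sy (R.mo hx w1)) v)))
        exact ⟨u, w1⟩) o z hz ⟨R.rf _ _, h⟩).2
  obtain ⟨f, rfl⟩ := tv (R.mo (i3 _) h)
  refine core' (fun x => (A (ι x) (h2.trans (i3 x))).subgroupOf (A k le_rfl)) (fun x => ⟨fun f hf g => ?_⟩)
    (fun x y => le_antisymm (fun f hf => ?_) (sup_le (fun f hf => ?_) fun f hf => ?_))
    (fun x y => le_antisymm (fun f hf => ⟨?_, ?_⟩) fun f hf => ?_) h
  · have := (g.1.2.1 _ (h2.trans (i3 x)) _ _).2 (key f _ (i3 x) hf _ (g⁻¹).2)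
    change R.r _ o (g.1.1 (f.1.1 (g.1.1⁻¹ o)))
    simpa using this
  · obtain ⟨c, p, q⟩ := R.de (i1 x y ▸ hf : R.r (ι x ⊓ ι y) o (f.1.1 o))
    obtain ⟨g, rfl⟩ := tv (R.mo (i3 _) p)
    rw [← mul_inv_cancel_left g f]
    refine Subgroup.mul_mem_sup p ((g.1.2.1 _ (h2.trans (i3 y)) _ _).1 ?_)
    change R.r _ _ (g.1.1 (g.1.1⁻¹ (f.1.1 o)))
    simpa using q
  · exact R.mo (i1 x y ▸ inf_le_left) hf
  · exact R.mo (i1 x y ▸ inf_le_right) hf
  · exact R.mo (i2 x y).le (R.mt hf.1 hf.2)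
  · exact R.mo (i2 x y ▸ le_sup_left) hf
  · exact R.mo (i2 x y ▸ le_sup_right) hf

end TRep

end Pool.Agent.H.MP_34520e_al
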