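import Pool.Agent.H.MP_34520e_al.A

namespace Pool.Agent.H.MP_34520e_al
open Pool.Agent.H.MP_011e6c_al

structure E where
  (a b c y z u v w : Bool)

lemma E.eq {g h : E} (h1 : g.a = h.a) (h2 : g.b = h.b) (h3 : g.c = h.c) (h4 : g.y = h.y)
    (h5 : g.z = h.z) (h6 : g.u = h.u) (h7 : g.v = h.v) (h8 : g.w = h.w) : g = h := by
  cases g; cases h; simp_all

instance : Mul E := ⟨fun g h => ⟨g.a + h.a, g.b + h.b, g.c + h.c + g.a * h.b, g.y + h.y, g.z + h.z,
  g.u + h.u + g.a * h.z, g.v + h.v + g.y * h.b, g.w + h.w + g.y * h.z⟩⟩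
instance : One E := ⟨⟨0, 0, 0, 0, 0, 0, 0, 0⟩⟩
instance : Inv E := ⟨fun g => ⟨-g.a, -g.b, -g.c + g.a * g.b, -g.y, -g.z, -g.u + g.a * g.z,
  -g.v + g.y * g.b, -g.w + g.y * g.z⟩⟩

lemma as3 (x y z a b d f : Bool) : x + y + a * d + z + (a + b) * f =
    x + (y + z + b * f) + a * (d + f) := by ring
lemma o3 (x a : Bool) : 0 + x + 0 * a = x := by ring
lemma i3 (x a b : Bool) : -x + a * b + x + -a * b = 0 := by ring

instance : Group E := Group.ofLeftAxioms
  (fun _ _ _ => E.eq (add_assoc ..) (add_assoc ..) (as3 ..) (add_assoc ..) (add_assoc ..)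
    (as3 ..) (as3 ..) (as3 ..))
  (fun _ => E.eq (zero_add _) (zero_add _) (o3 ..) (zero_add _) (zero_add _) (o3 ..) (o3 ..) (o3 ..))
  (fun _ => E.eq (neg_add_cancel _) (neg_add_cancel _) (i3 ..) (neg_add_cancel _) (neg_add_cancel _)
    (i3 ..) (i3 ..) (i3 ..))

def mk3 (a b c : Bool) : E := ⟨a, b, c, 0, 0, 0, 0, 0⟩

lemma mk3_mul (a b c a' b' c' : Bool) :
    mk3 a b c * mk3 a' b' c' = mk3 (a + a') (b + b') (c + c' + a * b') :=
  E.eq rfl rfl rfl rfl rfl (show 0 + 0 + a * 0 = 0 by ring) (show 0 + 0 + 0 * b' = 0 by ring) rfl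

def π : E →* E := MonoidHom.mk' (fun e => mk3 e.a e.b e.c) fun _ _ => (mk3_mul ..).symm

def κ (s t : Bool) : E →* E := MonoidHom.mk'
  (fun e => mk3 (s * e.a + e.y) (t * e.b + e.z) (s * t * e.c + s * e.u + t * e.v + e.w))
  fun g h => by
    rw [mk3_mul]
    congr 1
    · change s * (g.a + h.a) + (g.y + h.y) = _; ring
    · change t * (g.b + h.b) + (g.z + h.z) = _; ring
    · change s * t * (g.c + h.c + g.a * h.b) + s * (g.u + h.u + g.a * h.z) +
        t * (g.v + h.v + g.y * h.b) + (g.w + h.w + g.y * h.z) = _; ring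

def η (d : D) : G →* E := MonoidHom.mk' (fun g => mk3 (d.f g) (d.p g) (d.c g)) fun g h => by
  rw [mk3_mul, d.hf, d.hp, d.hc]; rfl

instance : DecidableEq E := fun g h => decidable_of_iff (g.a = h.a ∧ g.b = h.b ∧ g.c = h.c ∧
  g.y = h.y ∧ g.z = h.z ∧ g.u = h.u ∧ g.v = h.v ∧ g.w = h.w)
  ⟨fun ⟨a, b, c, d, e, f, i, j⟩ => E.eq a b c d e f i j, by rintro rfl; simp⟩

lemma κ_all (e : E) : (∀ s t, κ s t e = 1) → e = 1 :=
  (by decide +kernel : ∀ a b c d e f i j, (∀ s t, κ s t ⟨a, b, c, d, e, f, i, j⟩ = 1) →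
    (⟨a, b, c, d, e, f, i, j⟩ : E) = 1) _ _ _ _ _ _ _ _

lemma κ_sur (s t : Bool) (e : E) : ∃ n, π n = 1 ∧ κ s t n = κ s t e :=
  ⟨⟨0, 0, 0, (κ s t e).a, (κ s t e).b, 0, 0, (κ s t e).c⟩, rfl, by
    change mk3 (s * 0 + _) (t * 0 + _) (s * t * 0 + s * 0 + t * 0 + _) = _
    simp only [mul_zero, zero_add, add_zero]; rfl⟩

def dd : Fin 8 → D := ![c1, c2, c3, a12, a13, a23, a34, a24]

lemma dd_all (g : G) (h : ∀ i, η (dd i) g = 1) : g = 1 := by
  have k : ∀ i, (dd i).f g = false ∧ (dd i).p g = false ∧ (dd i).c g = false := fun i =>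
    ⟨congrArg E.a (h i), congrArg E.b (h i), congrArg E.c (h i)⟩
  exact G.eq (k 0).1 (k 1).1 (k 2).1 (k 6).2.1 (k 0).2.2 (k 1).2.2 (k 2).2.2 (k 3).2.2 (k 4).2.2
    (k 5).2.2 (k 6).2.2 (k 7).2.2

def GG : Subgroup (G × (Bool × Fin 8 → E)) where
  carrier := {x | ∀ i, π (x.2 i) = η (dd i.2) x.1}
  mul_mem' := fun hx hy i => by simp [hx i, hy i]
  one_mem' := fun i => by simp
  inv_mem' := fun hx i => by simp [hx i]

instance : Finite G := Finite.of_injective (fun g : G => (g.v1, g.v2, g.v3, g.v4, g.w11, g.w22,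
  g.w33, g.w12, g.w13, g.w23, g.w34, g.w24)) fun g h e => by cases g; cases h; simp_all
instance : Finite E := Finite.of_injective (fun g : E => (g.a, g.b, g.c, g.y, g.z, g.u, g.v, g.w))
  fun g h e => by cases g; cases h; simp_all

def NS (Γ : Type) [Group Γ] : Sublattice (Subgroup Γ) where
  carrier := {N | N.Normal}
  supClosed' := fun _ h _ k => @Subgroup.sup_normal _ _ _ _ h k
  infClosed' := fun _ h _ k => @Subgroup.normal_inf_normal _ _ _ _ h k

def pr : GG →* G := (MonoidHom.fst _ _).comp GG.subtype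

lemma pr_sur : Function.Surjective pr := fun g => ⟨⟨(g, fun i => η (dd i.2) g), fun _ => rfl⟩, rfl⟩

def ι (x : NL) : NS GG := ⟨x.1.comap pr, Subgroup.Normal.comap x.2 _⟩
def tt : NS GG := ⟨pr.ker, pr.normal_ker⟩
def TT : NS GG := ⟨⊤, show (⊤ : Subgroup GG).Normal from inferInstance⟩
def ev (i : Bool × Fin 8) : GG →* E :=
  (Pi.evalMonoidHom (fun _ => E) i).comp ((MonoidHom.snd _ _).comp GG.subtype)
def BB (σ : Bool) (k : Fin 8 × Bool × Bool) : NS GG :=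
  ⟨((κ k.2.1 k.2.2).comp (ev (σ, k.1))).ker, MonoidHom.normal_ker _⟩
noncomputable def jj (σ : Bool) : NS GG := Finset.univ.inf' Finset.univ_nonempty (BB σ)

lemma mem_jj {σ : Bool} {x : GG} : x ∈ (jj σ).1 ↔ ∀ i, x.1.2 (σ, i) = 1 :=
  ⟨fun h i => κ_all _ fun s t => Finset.inf'_le (BB σ) (Finset.mem_univ (i, s, t)) h, fun h =>
    Finset.inf'_induction _ _ (p := fun y : NS GG => x ∈ y.1) (fun _ a _ b => ⟨a, b⟩) fun k _ =>
      show κ k.2.1 k.2.2 (x.1.2 (σ, k.1)) = 1 by rw [h, map_one]⟩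

lemma jj_le (σ : Bool) : jj σ ≤ tt := fun x h => dd_all _ fun i =>
  (x.2 (σ, i)).symm.trans (by rw [mem_jj.1 h, map_one])

lemma top_le (σ : Bool) (k : Fin 8 × Bool × Bool) (y : NS GG)
    (h : ∀ x : GG, x.1.1 = 1 → (∀ i, x.1.2 (!σ, i) = 1) → x ∈ y.1) : TT ≤ BB σ k ⊔ y := fun x _ => by
  obtain ⟨n, h1, h2⟩ := κ_sur k.2.1 k.2.2 (x.1.2 (σ, k.1))
  let m : GG := ⟨(1, Pi.mulSingle (σ, k.1) n), fun i => by
    by_cases c : i = (σ, k.1)
    · simp [c, h1]
    · simp [c]⟩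
  rw [← mul_inv_cancel_right x m⁻¹, inv_inv]
  refine Subgroup.mul_mem_sup ?_ (h m rfl fun i => Pi.mulSingle_eq_of_ne (by simp) _)
  change ((κ k.2.1 k.2.2).comp (ev (σ, k.1))) _ = 1
  rw [map_mul, map_inv, mul_inv_eq_one]
  change κ _ _ (x.1.2 _) = κ _ _ ((Pi.mulSingle (σ, k.1) n : Bool × Fin 8 → E) (σ, k.1))
  rw [Pi.mulSingle_eq_same, h2]

lemma tt_le : tt ≤ jj true ⊔ jj false := fun x h => by
  have h0 : x.1.1 = 1 := h
  have k : ∀ i, π (x.1.2 i) = 1 := fun i => by rw [x.2 i, h0, map_one]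
  let m : GG := ⟨(1, fun i => if i.1 then 1 else x.1.2 i), fun i => by
    by_cases c : i.1 <;> simp [c, k]⟩
  rw [← mul_inv_cancel_left m x]
  refine Subgroup.mul_mem_sup (mem_jj.2 fun i => rfl) (mem_jj.2 fun i => ?_)
  exact inv_mul_cancel (x.1.2 (false, i))

lemma rep_le {X : Type} (R : TRep (NS GG) X TT) {o y : X} (h : R.r (ι c2.K) o y) :
    R.r (ι z2.K) o y :=
  R.main (BB true) (BB false) tt ι (fun _ _ => rfl)
    (fun _ _ => Subtype.ext (Subgroup.comap_sup_eq _ _ _ pr_sur).symm)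
    (fun x g h => show pr g ∈ x.1 by rw [show pr g = 1 from h]; exact one_mem _)
    (jj_le _) (jj_le _) (fun k => top_le _ k _ fun _ _ h => mem_jj.2 h)
    (fun k => top_le _ k _ fun _ h _ => h) tt_le h

open OrderDual in
theorem not_lin {X : Type} (f : LatticeHom (NS GG)ᵒᵈ (Setoid X)) (hf : Function.Injective f)
    (hc : ∀ a b x y, (∃ z, (f a).r x z ∧ (f b).r z y) → ∃ z, (f b).r x z ∧ (f a).r z y) :
    False := by
  have mo : ∀ {x y : NS GG} {a b : X}, x ≤ y → f (toDual y) a b → f (toDual x) a b := fun h k =>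
    Setoid.le_def.1 (OrderHomClass.mono f (toDual_le_toDual.2 h)) k
  have de : ∀ {x y : NS GG} {a b : X}, f (toDual (x ⊓ y)) a b →
      ∃ c, f (toDual x) a c ∧ f (toDual y) c b := fun {x y a b} h => by
    let S : Setoid X := ⟨fun a b => ∃ c, f (toDual x) a c ∧ f (toDual y) c b,
      fun a => ⟨a, Setoid.refl' _ _, Setoid.refl' _ _⟩,
      fun ⟨c, p, q⟩ => hc _ _ _ _ ⟨c, Setoid.symm' _ q, Setoid.symm' _ p⟩,
      fun ⟨c, p, q⟩ ⟨d, r, s⟩ => by
        obtain ⟨e, u, v⟩ := hc _ _ _ _ ⟨_, q, r⟩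
        exact ⟨e, Setoid.trans' _ p u, Setoid.trans' _ v s⟩⟩
    have : f (toDual x) ⊔ f (toDual y) ≤ S := sup_le (fun a b h => ⟨b, h, Setoid.refl' _ _⟩)
      fun a b h => ⟨a, Setoid.refl' _ _, h⟩
    exact this (by rw [← map_sup]; exact h)
  have ou : ∀ (x : NS GG) (a : X), f (toDual x) (Quotient.mk (f (toDual TT)) a).out a := fun x a =>
    mo (show x.1 ≤ ⊤ from le_top) (Quotient.mk_out (s := f (toDual TT)) a)
  let R : TRep (NS GG) (Quotient (f (toDual TT))) TT := {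
    r x a b := f (toDual x) a.out b.out
    rf _ _ := Setoid.refl' _ _
    sy := Setoid.symm' _
    tr := Setoid.trans' _
    mo := mo
    de h := by
      obtain ⟨c, p, q⟩ := de h
      exact ⟨Quotient.mk _ c, Setoid.trans' _ p (Setoid.symm' _ (ou _ c)), Setoid.trans' _ (ou _ c) q⟩
    mt {x y a b} p q := by
      change f (toDual x ⊓ toDual y) _ _
      rw [map_inf]; exact ⟨p, q⟩
    h0 h := Quotient.out_equiv_out.1 h }
  have k : f (toDual (ι c2.K)) ≤ f (toDual (ι z2.K)) := fun a b h =>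
    Setoid.trans' _ (Setoid.symm' _ (ou _ a)) (Setoid.trans' _ (rep_le R
      (Setoid.trans' _ (ou _ a) (Setoid.trans' _ h (Setoid.symm' _ (ou _ b))))) (ou _ b))
  have l : ι z2.K ≤ ι c2.K :=
    toDual_le_toDual.1 (inf_eq_left.1 (hf (by rw [map_inf]; exact inf_eq_left.2 k)))
  exact ne2 ((Subgroup.comap_le_comap_of_surjective pr_sur).1 l)

lemma lr_comm {Γ : Type} [Group Γ] (M N : Subgroup Γ) (hN : N.Normal) {x y : Γ}
    (h : x⁻¹ * y ∈ M ⊔ N) : ∃ z, x⁻¹ * z ∈ M ∧ z⁻¹ * y ∈ N := by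
  obtain ⟨a, ha, b, hb, e⟩ := Subgroup.mem_sup_of_normal_right.1 h
  exact ⟨x * a, by simpa using ha, by rwa [mul_inv_rev, mul_assoc, ← e, inv_mul_cancel_left]⟩

def lin (Γ : Type) [Group Γ] : LatticeHom (NS Γ) (Setoid Γ) where
  toFun N := QuotientGroup.leftRel N.1
  map_sup' M N := le_antisymm (Setoid.le_def.2 fun {x y} h => by
      obtain ⟨z, p, q⟩ := lr_comm M.1 N.1 N.2 (QuotientGroup.leftRel_apply.1 h)
      exact Setoid.trans' _
        (Setoid.le_def.1 le_sup_left (QuotientGroup.leftRel_apply.2 p))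
        (Setoid.le_def.1 le_sup_right (QuotientGroup.leftRel_apply.2 q)))
    (sup_le (Setoid.le_def.2 fun h => QuotientGroup.leftRel_apply.2
      (Subgroup.mem_sup_left (QuotientGroup.leftRel_apply.1 h)))
      (Setoid.le_def.2 fun h => QuotientGroup.leftRel_apply.2
      (Subgroup.mem_sup_right (QuotientGroup.leftRel_apply.1 h))))
  map_inf' M N := Setoid.ext fun x y => by
    rw [Setoid.inf_iff_and]; simp only [QuotientGroup.leftRel_apply]; rfl

lemma lin_apply {Γ : Type} [Group Γ] (N : NS Γ) (x y : Γ) : (lin Γ N).r x y ↔ x⁻¹ * y ∈ N.1 :=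
  QuotientGroup.leftRel_apply

lemma lin_inj (Γ : Type) [Group Γ] : Function.Injective (lin Γ) := fun M N h =>
  Subtype.ext (Subgroup.ext fun x => by
    have := lin_apply M 1 x
    rw [h, lin_apply] at this
    simpa using this.symm)

lemma lin_comm {Γ : Type} [Group Γ] (M N : NS Γ) (x y : Γ) :
    (∃ z, (lin Γ M).r x z ∧ (lin Γ N).r z y) → ∃ z, (lin Γ N).r x z ∧ (lin Γ M).r z y := by
  simp only [lin_apply]
  rintro ⟨z, p, q⟩
  exact lr_comm N.1 M.1 M.2 (by simpa [sup_comm, mul_assoc] using Subgroup.mul_mem_sup p q)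

end Pool.Agent.H.MP_34520e_al
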